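import Pool.Agent.TH87.RVC.Iso

set_option autoImplicit false
set_option linter.unusedSectionVars false

namespace Pool.Agent.TH87.RVC

open Finset Classical
open Pool.Agent.H234RC (Hypo NonIso Reconstructible exists_hypo)

theorem two_fifths_le : (2 / 5 : ℝ) ≤ Real.log (3 / 2) := by
  have h1 : Real.exp 2 ≤ (3 / 2 : ℝ) ^ 5 := by
    have h2 : Real.exp 2 = Real.exp 1 ^ 2 := by
      rw [← Real.exp_nat_mul]; norm_num
    rw [h2]
    have h3 := Real.exp_one_lt_d9
    have h4 : 0 < Real.exp 1 := Real.exp_pos 1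
    nlinarith
  have h5 : (2 : ℝ) ≤ Real.log ((3 / 2 : ℝ) ^ 5) :=
    (Real.le_log_iff_exp_le (by positivity)).mpr h1
  rw [Real.log_pow] at h5
  push_cast at h5
  linarith

theorem s_bound (a s : ℕ) (h : (3 / 2 : ℝ) ^ s ≤ 2 * (a.factorial : ℝ)) :
    (s : ℝ) + 1 ≤ 5 / 2 * (a * Real.log a) + 3 := by
  have hf : (a.factorial : ℝ) ≤ (a : ℝ) ^ a := by exact_mod_cast Nat.factorial_le_pow a
  have hf0 : (0 : ℝ) < (a.factorial : ℝ) := by exact_mod_cast Nat.factorial_pos a
  have h1 : (s : ℝ) * Real.log (3 / 2) ≤ Real.log 2 + a * Real.log a := by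
    have h2 := Real.log_le_log (by positivity) h
    rw [Real.log_pow, Real.log_mul (by norm_num) hf0.ne'] at h2
    have h3 : Real.log (a.factorial : ℝ) ≤ a * Real.log a := by
      rw [← Real.log_pow]
      exact Real.log_le_log hf0 hf
    linarith
  have h2 := two_fifths_le
  have h3 : (s : ℝ) * (2 / 5) ≤ s * Real.log (3 / 2) :=
    mul_le_mul_of_nonneg_left h2 (Nat.cast_nonneg _)
  have h4 := Real.log_two_lt_d9
  linarith

variable {V : Type} [Fintype V]

theorem count_bound {G H : SimpleGraph V} {π : V → Equiv.Perm V} (hH : Hypo G H π)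
    (hN : NonIso G H) (A : Finset V) (k : ℕ)
    (hk : ∀ v, v ∉ A → (univ.filter (fun y => y ∉ A ∧ G.Adj v y)).card ≤ k) :
    ((univ.filter (fun v => v ∉ A ∧ ∀ y, G.Adj v y → y ∈ A)).card : ℝ) <
      (5 / 2 * (A.card * Real.log A.card) + 3) ^ 2 + A.card * (2 * A.card + k) := by
  -- degrees outside `A`
  have hdeg : ∀ v, v ∉ A → dS G univ v ≤ A.card + k := by
    intro v hv
    have h1 : (univ.filter (fun y => G.Adj v y)) ⊆
        A ∪ univ.filter (fun y => y ∉ A ∧ G.Adj v y) := by
      intro y hy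
      rw [mem_union, mem_filter]
      by_cases hyA : y ∈ A
      · left; exact hyA
      · right; exact ⟨mem_univ _, hyA, (mem_filter.mp hy).2⟩
    calc dS G univ v ≤ (A ∪ univ.filter (fun y => y ∉ A ∧ G.Adj v y)).card := card_le_card h1
      _ ≤ A.card + (univ.filter (fun y => y ∉ A ∧ G.Adj v y)).card := card_union_le _ _
      _ ≤ A.card + k := by have := hk v hv; omega
  -- a gap in the degree sequence
  have hgap : ∃ e, A.card + k + 1 ≤ e ∧ e ≤ 2 * A.card + k + 1 ∧ ∀ v, dS G univ v ≠ e := by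
    by_contra hcon
    push Not at hcon
    have h1 : Finset.Icc (A.card + k + 1) (2 * A.card + k + 1) ⊆ A.image (fun v => dS G univ v) := by
      intro e he
      rw [mem_Icc] at he
      obtain ⟨v, hv⟩ := hcon e he.1 he.2
      rw [mem_image]
      refine ⟨v, ?_, hv⟩
      by_contra hvA
      have := hdeg v hvA
      omega
    have h2 := card_le_card h1
    rw [Nat.card_Icc] at h2
    have h3 : (A.image (fun v => dS G univ v)).card ≤ A.card := card_image_le
    omega
  obtain ⟨e, he1, he2, he⟩ := hgap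
  obtain ⟨s, hs1, hs2⟩ := graph_bound hH hN e he
  have hhi : (hiS G e).card ≤ A.card := by
    apply card_le_card
    intro v hv
    by_contra hvA
    have h1 := hdeg v hvA
    have h2 := (mem_filter.mp hv).2
    omega
  have hs3 : (3 / 2 : ℝ) ^ s ≤ 2 * (A.card.factorial : ℝ) := by
    refine hs2.trans ?_
    have : ((hiS G e).card.factorial : ℝ) ≤ (A.card.factorial : ℝ) := by
      exact_mod_cast Nat.factorial_le hhi
    linarith
  have hs4 := s_bound _ _ hs3
  -- counting
  set M := univ.filter (fun v => v ∉ A ∧ ∀ y, G.Adj v y → y ∈ A) with hM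
  have hcount : M.card ≤ (frS G e).card + A.card * (2 * A.card + k) := by
    have h1 : M ⊆ frS G e ∪ (A ∩ loS G e).biUnion (fun y => univ.filter (fun v => G.Adj y v)) := by
      intro v hv
      rw [hM, mem_filter] at hv
      obtain ⟨_, hvA, hvN⟩ := hv
      have hvlo : v ∈ loS G e := by
        have := hdeg v hvA
        rw [loS, mem_filter]
        exact ⟨mem_univ _, by omega⟩
      rw [mem_union]
      by_cases hF : dS G (loS G e) v = 0
      · left
        exact mem_filter.mpr ⟨hvlo, hF⟩
      · right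
        rw [dS, card_eq_zero, ← ne_eq, ← nonempty_iff_ne_empty] at hF
        obtain ⟨y, hy⟩ := hF
        rw [mem_filter] at hy
        rw [mem_biUnion]
        exact ⟨y, mem_inter.mpr ⟨hvN y hy.2, hy.1⟩, mem_filter.mpr ⟨mem_univ _, hy.2.symm⟩⟩
    calc M.card ≤ (frS G e ∪ (A ∩ loS G e).biUnion (fun y => univ.filter (fun v => G.Adj y v))).card :=
          card_le_card h1
      _ ≤ (frS G e).card + ((A ∩ loS G e).biUnion (fun y => univ.filter (fun v => G.Adj y v))).card :=
          card_union_le _ _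
      _ ≤ (frS G e).card + A.card * (2 * A.card + k) := by
          apply Nat.add_le_add_left
          calc _ ≤ ∑ y ∈ A ∩ loS G e, (univ.filter (fun v => G.Adj y v)).card := card_biUnion_le
            _ ≤ ∑ _y ∈ A ∩ loS G e, (2 * A.card + k) := by
                apply sum_le_sum
                intro y hy
                have h2 : dS G univ y < e := (mem_filter.mp (mem_inter.mp hy).2).2
                rw [dS] at h2
                omega
            _ = (A ∩ loS G e).card * (2 * A.card + k) := by rw [sum_const, smul_eq_mul]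
            _ ≤ A.card * (2 * A.card + k) :=
                Nat.mul_le_mul_right _ (card_le_card inter_subset_left)
  have h5 : (M.card : ℝ) ≤ (frS G e).card + A.card * (2 * A.card + k) := by exact_mod_cast hcount
  have h6 : ((frS G e).card : ℝ) ≤ s * (s + 2) := by exact_mod_cast hs1
  have h7 : (0 : ℝ) ≤ s := Nat.cast_nonneg _
  have h8 : ((s : ℝ) + 1) ^ 2 ≤ (5 / 2 * (A.card * Real.log A.card) + 3) ^ 2 :=
    pow_le_pow_left₀ (by linarith) hs4 2
  nlinarith

theorem compl_hypo {G H : SimpleGraph V} {π : V → Equiv.Perm V} (hH : Hypo Gᶜ H π)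
    (hN : NonIso Gᶜ H) : Hypo G Hᶜ π ∧ NonIso G Hᶜ := by
  refine ⟨⟨hH.fix, fun v x y hx hy => ?_⟩, ?_⟩
  · have := hH.adj v x y hx hy
    rw [SimpleGraph.compl_adj, this, SimpleGraph.compl_adj, (π v).injective.ne_iff]
    constructor
    · rintro ⟨h1, h2⟩
      by_contra h3
      exact h2 ⟨h1, h3⟩
    · intro h
      exact ⟨h.ne, fun h' => h'.2 h⟩
  · rintro ⟨σ, hσ⟩
    apply hN
    refine ⟨σ, fun x y => ?_⟩
    have := hσ x y
    rw [SimpleGraph.compl_adj, σ.injective.ne_iff] at this
    rw [SimpleGraph.compl_adj]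
    constructor
    · intro h
      have hne : x ≠ y := fun e => h.ne (by rw [e])
      exact ⟨hne, fun h' => (this.mpr h').2 h⟩
    · rintro ⟨h1, h2⟩
      by_contra h3
      exact h2 (this.mp ⟨h1, h3⟩)

theorem main (G : SimpleGraph V) (A : Finset V) (k : ℕ)
    (hk : ∀ v, v ∉ A → (univ.filter (fun y => y ∉ A ∧ G.Adj v y)).card ≤ k)
    (hm : (5 / 2 * (A.card * Real.log A.card) + 3) ^ 2 + A.card * (2 * A.card + k) ≤
      ((univ.filter (fun v => v ∉ A ∧ ∀ y, G.Adj v y → y ∈ A)).card : ℝ)) :
    Reconstructible G ∧ Reconstructible Gᶜ := by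
  constructor
  · by_contra hcon
    obtain ⟨H, π, hH, hN⟩ := exists_hypo G hcon
    exact absurd hm (not_le.mpr (count_bound hH hN A k hk))
  · by_contra hcon
    obtain ⟨H, π, hH, hN⟩ := exists_hypo Gᶜ hcon
    obtain ⟨hH', hN'⟩ := compl_hypo hH hN
    exact absurd hm (not_le.mpr (count_bound hH' hN' A k hk))

end Pool.Agent.TH87.RVC
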