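import Pool.Agent.TH87.RVC.Multi

set_option autoImplicit false
set_option linter.unusedSectionVars false

namespace Pool.Agent.TH87.RVC

open Finset

/-- weight function -/
noncomputable def hh (k : ℕ) : ℝ := (k.factorial : ℝ) * 2 ^ k

theorem hh_pos (k : ℕ) : 0 < hh k := by
  unfold hh; positivity

theorem one_le_hh (k : ℕ) : 1 ≤ hh k := by
  unfold hh
  have h1 : (1 : ℝ) ≤ (k.factorial : ℝ) := by exact_mod_cast Nat.succ_le_of_lt k.factorial_pos
  have h2 : (1 : ℝ) ≤ 2 ^ k := one_le_pow₀ (by norm_num)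
  nlinarith

theorem choose_step (n j : ℕ) (h : j ≤ n) :
    (n.choose (j + 1) : ℝ) * ((j : ℝ) + 1) = (n.choose j : ℝ) * ((n : ℝ) - j) := by
  have := Nat.choose_succ_right_eq n j
  have h2 := congrArg (fun k : ℕ => (k : ℝ)) this
  simp only [Nat.cast_mul, Nat.cast_sub h] at h2
  push_cast at h2
  exact h2

/-- the two-term test polynomial -/
theorem two_term (j n : ℕ) :
    |(3 / 2 : ℝ) * (n.choose (j + 1) : ℝ) - 1 / (2 * ((j : ℝ) + 1)) * (n.choose j : ℝ)| * hh (j + 1)
      ≤ hh n := by
  have hj : (0 : ℝ) < (j : ℝ) + 1 := by positivity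
  rcases lt_trichotomy n j with hn | hn | hn
  · rw [Nat.choose_eq_zero_of_lt hn, Nat.choose_eq_zero_of_lt (by omega : n < j + 1)]
    simp [(hh_pos n).le]
  · subst hn
    rw [Nat.choose_eq_zero_of_lt (Nat.lt_succ_self n), Nat.choose_self]
    have : |(3 / 2 : ℝ) * ((0 : ℕ) : ℝ) - 1 / (2 * ((n : ℝ) + 1)) * ((1 : ℕ) : ℝ)| =
        1 / (2 * ((n : ℝ) + 1)) := by
      rw [Nat.cast_zero, mul_zero, zero_sub, Nat.cast_one, mul_one, abs_neg, abs_of_pos (by positivity)]
    rw [this]
    unfold hh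
    rw [Nat.factorial_succ, pow_succ]
    push_cast
    apply le_of_eq
    field_simp
  · have hstep := choose_step n j hn.le
    have hnj : (1 : ℝ) ≤ (n : ℝ) - j := by
      have : ((j + 1 : ℕ) : ℝ) ≤ n := by exact_mod_cast hn
      push_cast at this
      linarith
    have hC0 : (0 : ℝ) ≤ (n.choose j : ℝ) := by positivity
    have hC1 : (0 : ℝ) ≤ (n.choose (j + 1) : ℝ) := by positivity
    -- choose n j ≤ (j+1) choose n (j+1)
    have hle : (n.choose j : ℝ) ≤ (n.choose (j + 1) : ℝ) * ((j : ℝ) + 1) := by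
      rw [hstep]; nlinarith
    have hle2 : 1 / (2 * ((j : ℝ) + 1)) * (n.choose j : ℝ) ≤ (1 / 2) * (n.choose (j + 1) : ℝ) := by
      rw [div_mul_eq_mul_div, one_mul, div_le_iff₀ (by positivity)]
      nlinarith
    have hnn : 0 ≤ 1 / (2 * ((j : ℝ) + 1)) * (n.choose j : ℝ) := by positivity
    rw [abs_of_nonneg (by linarith)]
    rcases eq_or_lt_of_le (Nat.succ_le_of_lt hn) with h1 | h1
    · -- n = j + 1
      have h1' : n = j + 1 := by omega
      subst h1'
      rw [Nat.choose_self, Nat.choose_succ_self_right]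
      have : (3 / 2 : ℝ) * ((1 : ℕ) : ℝ) - 1 / (2 * ((j : ℝ) + 1)) * ((j + 1 : ℕ) : ℝ) = 1 := by
        push_cast
        field_simp
        norm_num
      rw [this, one_mul]
    · -- n ≥ j + 2
      have h2 : (n.choose (j + 1) : ℝ) * ((j + 1).factorial : ℝ) ≤ (n.factorial : ℝ) := by
        have := Nat.choose_mul_factorial_mul_factorial (show j + 1 ≤ n by omega)
        have h3 : n.choose (j + 1) * (j + 1).factorial ≤ n.factorial := by
          calc n.choose (j + 1) * (j + 1).factorial
              ≤ n.choose (j + 1) * (j + 1).factorial * (n - (j + 1)).factorial :=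
                Nat.le_mul_of_pos_right _ (Nat.factorial_pos _)
            _ = n.factorial := this
        exact_mod_cast h3
      have h4 : (3 / 2 : ℝ) * 2 ^ (j + 1) ≤ 2 ^ n := by
        have : (2 : ℝ) ^ (j + 2) ≤ 2 ^ n := pow_le_pow_right₀ (by norm_num) (by omega)
        have h5 : (2 : ℝ) ^ (j + 2) = 2 * 2 ^ (j + 1) := by rw [pow_succ]; ring
        have h6 : (0 : ℝ) < 2 ^ (j + 1) := by positivity
        nlinarith
      have hhp : 0 < hh (j + 1) := hh_pos _
      calc ((3 / 2 : ℝ) * (n.choose (j + 1) : ℝ) - 1 / (2 * ((j : ℝ) + 1)) * (n.choose j : ℝ)) * hh (j + 1)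
          ≤ ((3 / 2 : ℝ) * (n.choose (j + 1) : ℝ)) * hh (j + 1) := by
            apply mul_le_mul_of_nonneg_right _ hhp.le
            linarith
        _ = ((n.choose (j + 1) : ℝ) * ((j + 1).factorial : ℝ)) * ((3 / 2 : ℝ) * 2 ^ (j + 1)) := by
            unfold hh; ring
        _ ≤ (n.factorial : ℝ) * 2 ^ n := by
            apply mul_le_mul h2 h4 (by positivity) (by positivity)
        _ = hh n := rfl

section multi

variable {X Γ : Type} [Fintype X] [DecidableEq X] [Group Γ] [Fintype Γ] (φ : Γ →* Equiv.Perm X)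

/-- coefficients of the test function with base `w` -/
noncomputable def aa (w : X → ℕ) (x : X) (j : ℕ) : ℝ :=
  if w x = 0 then (if j = 0 then 1 else 0)
  else if j = w x then 3 / 2 else if j + 1 = w x then -(1 / (2 * (w x : ℝ))) else 0

theorem aa_bound (w : X → ℕ) (x : X) (n : ℕ) :
    |∑ j ∈ range (w x + 1), aa w x j * (n.choose j : ℝ)| * hh (w x) ≤ hh n := by
  rcases h : w x with _ | j
  · simp only [zero_add, range_one, sum_singleton]
    unfold aa
    simp only [h, if_true]
    have : hh 0 = 1 := by simp [hh]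
    rw [this]
    simpa using one_le_hh n
  · have : ∑ i ∈ range (j + 1 + 1), aa w x i * (n.choose i : ℝ) =
        (3 / 2 : ℝ) * (n.choose (j + 1) : ℝ) - 1 / (2 * ((j : ℝ) + 1)) * (n.choose j : ℝ) := by
      rw [sum_range_succ, sum_range_succ]
      have h0 : ∑ i ∈ range j, aa w x i * (n.choose i : ℝ) = 0 := by
        apply sum_eq_zero
        intro i hi
        rw [mem_range] at hi
        have : aa w x i = 0 := by
          unfold aa
          rw [if_neg (by omega), if_neg (by omega), if_neg (by omega)]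
        rw [this, zero_mul]
      have h1 : aa w x j = -(1 / (2 * ((j : ℝ) + 1))) := by
        unfold aa
        rw [if_neg (by omega), if_neg (by omega), if_pos (by omega), h]
        push_cast
        rfl
      have h2 : aa w x (j + 1) = 3 / 2 := by
        unfold aa
        rw [if_neg (by omega), if_pos (by omega)]
      rw [h0, h1, h2]
      ring
    rw [this]
    exact two_term j n

theorem aa_top (w : X → ℕ) :
    ∏ x, aa w x (w x) = (3 / 2 : ℝ) ^ (univ.filter (fun x => w x ≠ 0)).card := by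
  have : ∀ x, aa w x (w x) = if w x ≠ 0 then (3 / 2 : ℝ) else 1 := by
    intro x
    unfold aa
    by_cases h : w x = 0
    · simp [h]
    · simp [h]
  simp_rw [this]
  rw [Finset.prod_ite, prod_const, prod_const_one, mul_one]

theorem eq_of_le_sum (u v : X → ℕ) (h : ∀ x, u x ≤ v x) (hs : ∑ x, u x = ∑ x, v x) :
    ∀ x, v x = u x := by
  intro x
  by_contra hne
  have : ∑ x, u x < ∑ x, v x :=
    sum_lt_sum (fun x _ => h x) ⟨x, mem_univ x, lt_of_le_of_ne (h x) (fun e => hne e.symm)⟩
  omega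

/-- the sum of the absolute values of a test function -/
theorem phi_bound (w u : X → ℕ) (hP : ∏ x, hh (u x) ≤ ∏ x, hh (w x)) :
    |∑ γ : Γ, ∏ x, (∑ j ∈ range (w x + 1), aa w x j * ((u (φ γ x)).choose j : ℝ))| ≤
      Fintype.card Γ := by
  have hPw : 0 < ∏ x, hh (w x) := prod_pos (fun x _ => hh_pos _)
  have h1 : ∀ γ : Γ, |∏ x, (∑ j ∈ range (w x + 1), aa w x j * ((u (φ γ x)).choose j : ℝ))| ≤ 1 := by
    intro γ
    rw [abs_prod]
    have h2 : (∏ x, |∑ j ∈ range (w x + 1), aa w x j * ((u (φ γ x)).choose j : ℝ)|) *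
        ∏ x, hh (w x) ≤ ∏ x, hh (w x) := by
      rw [← prod_mul_distrib]
      calc _ ≤ ∏ x, hh (u (φ γ x)) := by
            apply prod_le_prod
            · intro x _
              exact mul_nonneg (abs_nonneg _) (hh_pos _).le
            · intro x _
              exact aa_bound w x _
        _ = ∏ x, hh (u x) := Equiv.prod_comp (φ γ) (fun x => hh (u x))
        _ ≤ _ := hP
    nlinarith [h2, hPw]
  calc |∑ γ : Γ, ∏ x, (∑ j ∈ range (w x + 1), aa w x j * ((u (φ γ x)).choose j : ℝ))|
      ≤ ∑ γ : Γ, |∏ x, (∑ j ∈ range (w x + 1), aa w x j * ((u (φ γ x)).choose j : ℝ))| :=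
        abs_sum_le_sum_abs _ _
    _ ≤ ∑ γ : Γ, (1 : ℝ) := sum_le_sum (fun γ _ => h1 γ)
    _ = Fintype.card Γ := by simp

theorem supp_bound (w w' : X → ℕ) (m : ℕ) (hw : ∑ x, w x = m) (hw' : ∑ x, w' x = m)
    (hk : ∀ c : X → ℕ, ∑ x, c x < m → FF φ c w = FF φ c w')
    (hne : ¬ ∃ γ : Γ, ∀ x, w' (φ γ x) = w x)
    (hP : ∏ x, hh (w' x) ≤ ∏ x, hh (w x)) :
    (3 / 2 : ℝ) ^ (univ.filter (fun x => w x ≠ 0)).card ≤ 2 * Fintype.card Γ := by
  have h1 := test_top φ (aa w) w w w' m hw hk
  rw [aa_top] at h1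
  have h2 : 1 ≤ FF φ w w := by
    unfold FF
    have h3 := single_le_sum (f := fun γ : Γ => ∏ x, ((w (φ γ x)).choose (w x) : ℝ)) (s := univ)
      (fun γ _ => prod_nonneg (fun x _ => Nat.cast_nonneg _)) (mem_univ (1 : Γ))
    simpa using h3
  have h3 : FF φ w w' = 0 := by
    unfold FF
    apply sum_eq_zero
    intro γ _
    by_contra hcon
    apply hne
    refine ⟨γ, eq_of_le_sum w (fun x => w' (φ γ x)) ?_ ?_⟩
    · intro x
      by_contra hlt
      apply hcon
      apply prod_eq_zero (mem_univ x)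
      rw [Nat.choose_eq_zero_of_lt (by omega)]
      simp
    · rw [hw, ← hw']
      exact (Equiv.sum_comp (φ γ) w').symm
  rw [h3, sub_zero] at h1
  have h4 := phi_bound φ w w le_rfl
  have h5 := phi_bound φ w w' hP
  have h6 : (0 : ℝ) < (3 / 2 : ℝ) ^ (univ.filter (fun x => w x ≠ 0)).card := by positivity
  have h7 := abs_le.mp h4
  have h8 := abs_le.mp h5
  nlinarith [h7.1, h7.2, h8.1, h8.2]

theorem rep_prod (S : Finset ℕ) : ∃ a : ℕ → ℝ, ∀ n : ℕ,
    ∏ i ∈ S, ((n : ℝ) - i) = ∑ j ∈ range (S.card + 1), a j * (n.choose j : ℝ) := by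
  classical
  induction S using Finset.induction_on with
  | empty => exact ⟨fun _ => 1, fun n => by simp⟩
  | insert i S hi ih =>
    obtain ⟨a, ha⟩ := ih
    refine ⟨fun j => (if j < S.card + 1 then ((j : ℝ) - i) * a j else 0) + (j : ℝ) * a (j - 1), ?_⟩
    intro n
    rw [prod_insert hi, ha n, card_insert_of_notMem hi, mul_sum]
    have h1 : ∀ j, ((n : ℝ) - i) * (a j * (n.choose j : ℝ)) =
        ((j : ℝ) - i) * a j * (n.choose j : ℝ) + ((j : ℝ) + 1) * a j * (n.choose (j + 1) : ℝ) := by
      intro j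
      rcases le_or_gt j n with h | h
      · have := choose_step n j h
        have h2 : ((n : ℝ) - i) * (n.choose j : ℝ) =
            ((j : ℝ) - i) * (n.choose j : ℝ) + (n.choose (j + 1) : ℝ) * ((j : ℝ) + 1) := by
          rw [this]; ring
        calc ((n : ℝ) - i) * (a j * (n.choose j : ℝ)) = a j * (((n : ℝ) - i) * (n.choose j : ℝ)) := by ring
          _ = _ := by rw [h2]; ring
      · rw [Nat.choose_eq_zero_of_lt h, Nat.choose_eq_zero_of_lt (by omega : n < j + 1)]
        simp
    have h3 : ∀ j, ((if j < S.card + 1 then ((j : ℝ) - i) * a j else 0) + (j : ℝ) * a (j - 1)) *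
        (n.choose j : ℝ) = (if j < S.card + 1 then ((j : ℝ) - i) * a j else 0) * (n.choose j : ℝ) +
          (j : ℝ) * a (j - 1) * (n.choose j : ℝ) := fun j => by ring
    rw [sum_congr rfl (fun j _ => h1 j), sum_congr rfl (fun j _ => h3 j), sum_add_distrib,
      sum_add_distrib]
    congr 1
    · rw [sum_range_succ _ (S.card + 1)]
      rw [if_neg (lt_irrefl _), zero_mul, add_zero]
      apply sum_congr rfl
      intro j hj
      rw [mem_range] at hj
      rw [if_pos hj]
    · rw [sum_range_succ' _ (S.card + 1)]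
      simp only [Nat.cast_zero, zero_mul, add_zero]
      apply sum_congr rfl
      intro j _
      push_cast
      simp

theorem val_attained (w w' : X → ℕ) (m : ℕ) (hw : ∑ x, w x = m) (hw' : ∑ x, w' x = m)
    (hk : ∀ c : X → ℕ, ∑ x, c x < m → FF φ c w = FF φ c w')
    (hne : ¬ ∃ γ : Γ, ∀ x, w' (φ γ x) = w x)
    (q : ℕ) (x0 : X) (hx0 : w x0 = q) (hq : ∀ x, w x ≤ q)
    (v : ℕ) (hv : v < q) : (∃ x, w x = v) ∨ (∃ x, w' x = v) := by
  classical
  by_contra hcon
  push Not at hcon
  obtain ⟨hc1, hc2⟩ := hcon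
  obtain ⟨b, hb⟩ := rep_prod ((range q).erase v)
  have hcard : ((range q).erase v).card + 1 = q := by
    rw [card_erase_of_mem (mem_range.mpr hv), card_range]; omega
  rw [hcard] at hb
  let D : X → ℕ := fun x => if x = x0 then q - 1 else w x
  let a : X → ℕ → ℝ := fun x j => if x = x0 then b j else (if j = w x then 1 else 0)
  have hDlt : ∑ x, D x < m := by
    rw [← hw]
    apply sum_lt_sum
    · intro x _
      by_cases h : x = x0
      · simp only [D, h, if_true, hx0]; omega
      · simp [D, h]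
    · exact ⟨x0, mem_univ _, by simp only [D, if_true, hx0]; omega⟩
  have hg0 : ∀ n : ℕ, ∑ j ∈ range (D x0 + 1), a x0 j * (n.choose j : ℝ) =
      ∏ i ∈ (range q).erase v, ((n : ℝ) - i) := by
    intro n
    have : D x0 + 1 = q := by simp only [D, if_true]; omega
    rw [this, hb n]
    simp [a]
  have hg1 : ∀ x, x ≠ x0 → ∀ n : ℕ, ∑ j ∈ range (D x + 1), a x j * (n.choose j : ℝ) =
      (n.choose (w x) : ℝ) := by
    intro x hx n
    simp only [D, a, if_neg hx]
    rw [sum_range_succ]
    rw [sum_eq_zero]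
    · simp
    · intro j hj
      rw [mem_range] at hj
      rw [if_neg (by omega), zero_mul]
  have hmain := test_lt φ a D w w' m hDlt hk
  -- values at the special coordinate
  have hz : ∀ n : ℕ, n < q → n ≠ v → ∏ i ∈ (range q).erase v, ((n : ℝ) - i) = 0 := by
    intro n hn hnv
    apply prod_eq_zero (mem_erase.mpr ⟨hnv, mem_range.mpr hn⟩)
    simp
  have hpos : 0 < ∏ i ∈ (range q).erase v, ((q : ℝ) - i) := by
    apply prod_pos
    intro i hi
    have : i < q := mem_range.mp (mem_erase.mp hi).2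
    have : (i : ℝ) < q := by exact_mod_cast this
    linarith
  have hnn : ∀ u : X → ℕ, (∀ x, u x ≤ q) → (∀ x, u x ≠ v) → ∀ γ : Γ,
      0 ≤ ∏ x, (∑ j ∈ range (D x + 1), a x j * ((u (φ γ x)).choose j : ℝ)) := by
    intro u hu1 hu2 γ
    apply prod_nonneg
    intro x _
    by_cases hx : x = x0
    · subst hx
      rw [hg0]
      rcases eq_or_lt_of_le (hu1 (φ γ x)) with h | h
      · rw [h]; exact hpos.le
      · rw [hz _ h (hu2 _)]
    · rw [hg1 x hx]; exact Nat.cast_nonneg _
  have hL : 0 < ∑ γ : Γ, ∏ x, (∑ j ∈ range (D x + 1), a x j * ((w (φ γ x)).choose j : ℝ)) := by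
    apply sum_pos' (fun γ _ => hnn w hq hc1 γ)
    refine ⟨1, mem_univ _, ?_⟩
    apply prod_pos
    intro x _
    rw [map_one]
    simp only [Equiv.Perm.coe_one, id_eq]
    by_cases hx : x = x0
    · subst hx
      rw [hg0, hx0]; exact hpos
    · rw [hg1 x hx, Nat.choose_self]; norm_num
  rw [hmain] at hL
  obtain ⟨γ, _, hγ⟩ := exists_ne_zero_of_sum_ne_zero (ne_of_gt hL)
  apply hne
  refine ⟨γ, eq_of_le_sum w (fun x => w' (φ γ x)) ?_ ?_⟩
  · intro x
    have hx' := (prod_ne_zero_iff.mp hγ) x (mem_univ x)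
    by_cases hx : x = x0
    · subst hx
      rw [hg0] at hx'
      rw [hx0]
      by_contra hlt
      exact hx' (hz _ (by omega) (hc2 _))
    · rw [hg1 x hx] at hx'
      by_contra hlt
      apply hx'
      rw [Nat.choose_eq_zero_of_lt (by omega)]
      simp
  · rw [hw, ← hw']
    exact (Equiv.sum_comp (φ γ) w').symm

/-- one half of the bound for the size of a multiset which is not determined by its deck -/
theorem half_bound {ι : Type} [Fintype ι] [Nonempty ι] (t t' : ι → X)
    (hdeck : ∀ i, ∃ g : Γ, ∀ x, del (cnt t') (t' i) (φ g x) = del (cnt t) (t i) x)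
    (hne : ¬ ∃ γ : Γ, ∀ x, cnt t' (φ γ x) = cnt t x)
    (hP : ∏ x, hh (cnt t' x) ≤ ∏ x, hh (cnt t x)) :
    ∃ s : ℕ, Fintype.card ι ≤ s * (s + 2) ∧ (3 / 2 : ℝ) ^ s ≤ 2 * Fintype.card Γ := by
  classical
  have hw : ∑ x, cnt t x = Fintype.card ι := sum_cnt_card t
  have hw' : ∑ x, cnt t' x = Fintype.card ι := sum_cnt_card t'
  have hk := kelly φ t t' hdeck
  refine ⟨(univ.filter (fun x => cnt t x ≠ 0)).card, ?_,
    supp_bound φ (cnt t) (cnt t') _ hw hw' hk hne hP⟩
  set S := univ.filter (fun x => cnt t x ≠ 0) with hS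
  obtain ⟨i0⟩ := (inferInstance : Nonempty ι)
  have hX : (univ : Finset X).Nonempty := ⟨t i0, mem_univ _⟩
  obtain ⟨x0, _, hx0⟩ := exists_max_image univ (cnt t) hX
  set q := cnt t x0 with hq
  have hle : ∀ x, cnt t x ≤ q := fun x => hx0 x (mem_univ x)
  have hval := val_attained φ (cnt t) (cnt t') _ hw hw' hk hne q x0 rfl hle
  obtain ⟨g, hg⟩ := hdeck i0
  -- the two exceptional values
  set p1 := cnt t (t i0) - 1 with hp1
  set p2 := del (cnt t) (t i0) ((φ g).symm (t' i0)) + 1 with hp2
  have hsub : Finset.Icc 1 q ⊆ (S.image (cnt t)) ∪ {p1, p2} := by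
    intro v hv
    rw [mem_Icc] at hv
    rw [mem_union]
    rcases eq_or_lt_of_le hv.2 with h | h
    · left
      rw [mem_image]
      exact ⟨x0, by rw [hS, mem_filter]; exact ⟨mem_univ _, by omega⟩, h.symm⟩
    · rcases hval v h with ⟨x, hx⟩ | ⟨x, hx⟩
      · left
        rw [mem_image]
        exact ⟨x, by rw [hS, mem_filter]; exact ⟨mem_univ _, by omega⟩, hx⟩
      · have hx1 := hg ((φ g).symm x)
        rw [Equiv.apply_symm_apply] at hx1
        by_cases h1 : x = t' i0
        · right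
          subst h1
          rw [mem_insert, mem_singleton]
          right
          rw [hp2, ← hx1]
          simp only [del, if_true]
          omega
        · have h2 : del (cnt t') (t' i0) x = v := by simp [del, h1, hx]
          rw [h2] at hx1
          by_cases h3 : (φ g).symm x = t i0
          · right
            rw [mem_insert]
            left
            rw [hx1, h3]
            simp [del, hp1]
          · left
            rw [mem_image]
            have h4 : cnt t ((φ g).symm x) = v := by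
              rw [hx1]; simp [del, h3]
            exact ⟨(φ g).symm x, by rw [hS, mem_filter]; exact ⟨mem_univ _, by omega⟩, h4⟩
  have hcard : q ≤ S.card + 2 := by
    calc q = (Finset.Icc 1 q).card := by simp
      _ ≤ ((S.image (cnt t)) ∪ {p1, p2}).card := card_le_card hsub
      _ ≤ (S.image (cnt t)).card + ({p1, p2} : Finset ℕ).card := card_union_le _ _
      _ ≤ S.card + 2 := add_le_add card_image_le (card_le_two)
  have hsum : ∑ x, cnt t x = ∑ x ∈ S, cnt t x := by
    rw [hS, sum_filter]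
    apply sum_congr rfl
    intro x _
    by_cases h : cnt t x = 0
    · simp [h]
    · simp [h]
  calc Fintype.card ι = ∑ x ∈ S, cnt t x := by rw [← hw, hsum]
    _ ≤ ∑ _x ∈ S, q := sum_le_sum (fun x _ => hle x)
    _ = S.card * q := by simp
    _ ≤ S.card * (S.card + 2) := Nat.mul_le_mul_left _ hcard

/-- a multiset of more than `s (s + 2)` elements is determined by its deck up to the group -/
theorem main_bound {ι : Type} [Fintype ι] [Nonempty ι] (t t' : ι → X)
    (hdeck : ∀ i, ∃ g : Γ, ∀ x, del (cnt t') (t' i) (φ g x) = del (cnt t) (t i) x)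
    (hne : ¬ ∃ γ : Γ, ∀ x, cnt t' (φ γ x) = cnt t x) :
    ∃ s : ℕ, Fintype.card ι ≤ s * (s + 2) ∧ (3 / 2 : ℝ) ^ s ≤ 2 * Fintype.card Γ := by
  rcases le_total (∏ x, hh (cnt t' x)) (∏ x, hh (cnt t x)) with hP | hP
  · exact half_bound φ t t' hdeck hne hP
  · refine half_bound φ t' t ?_ ?_ hP
    · intro i
      obtain ⟨g, hg⟩ := hdeck i
      refine ⟨g⁻¹, fun x => ?_⟩
      have := hg (φ g⁻¹ x)
      rw [← this]
      congr 1
      rw [map_inv]
      simp
    · rintro ⟨γ, hγ⟩
      apply hne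
      refine ⟨γ⁻¹, fun x => ?_⟩
      have := hγ (φ γ⁻¹ x)
      have e : φ γ (φ γ⁻¹ x) = x := by
        rw [map_inv]; exact (φ γ).apply_symm_apply x
      rw [e] at this
      exact this.symm

end multi

end Pool.Agent.TH87.RVC
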