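import Pool.Agent.H234RC.T1
import Pool.Agent.TH87.RVC.Bound

set_option autoImplicit false
set_option linter.unusedSectionVars false

namespace Pool.Agent.TH87.RVC

open Finset Classical
open Pool.Agent.H234RC (Hypo NonIso)

variable {V : Type} [Fintype V]

/-- number of neighbours of `v` in `S` -/
noncomputable def dS (G : SimpleGraph V) (S : Finset V) (v : V) : ℕ :=
  (S.filter (fun y => G.Adj v y)).card

theorem dS_eq_sum (G : SimpleGraph V) (S : Finset V) (v : V) :
    dS G S v = ∑ y ∈ S, if G.Adj v y then 1 else 0 := by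
  rw [dS, card_filter]

theorem map_perm_eq (σ : Equiv.Perm V) (T : Finset V) (h : ∀ u ∈ T, σ u ∈ T) :
    T.map σ.toEmbedding = T := by
  apply eq_of_subset_of_card_le
  · intro x hx
    obtain ⟨y, hy, rfl⟩ := mem_map.mp hx
    exact h y hy
  · rw [card_map]

theorem symm_mem (σ : Equiv.Perm V) (T : Finset V) (h : ∀ u ∈ T, σ u ∈ T) :
    ∀ u ∈ T, σ.symm u ∈ T := by
  intro u hu
  rw [← map_perm_eq σ T h] at hu
  obtain ⟨y, hy, hyu⟩ := mem_map.mp hu
  have : σ y = u := hyu
  rw [← this, Equiv.symm_apply_apply]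
  exact hy

theorem mem_iff_of_maps (σ : Equiv.Perm V) (T : Finset V) (h : ∀ u ∈ T, σ u ∈ T) (u : V) :
    σ u ∈ T ↔ u ∈ T := by
  constructor
  · intro hu
    have := symm_mem σ T h _ hu
    rwa [Equiv.symm_apply_apply] at this
  · exact h u

theorem pair_sum_eq (G : SimpleGraph V) (S : Finset V) (v : V) (hv : v ∈ S) :
    ∑ x ∈ S, dS G S x =
      (∑ x ∈ S.erase v, ∑ y ∈ S.erase v, if G.Adj x y then 1 else 0) + 2 * dS G S v := by
  rw [← add_sum_erase S _ hv]
  have h1 : ∀ x ∈ S.erase v, dS G S x =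
      (if G.Adj x v then 1 else 0) + ∑ y ∈ S.erase v, if G.Adj x y then 1 else 0 := by
    intro x _
    rw [dS_eq_sum, ← add_sum_erase S _ hv]
  rw [sum_congr rfl h1, sum_add_distrib]
  have h2 : ∑ x ∈ S.erase v, (if G.Adj x v then 1 else 0) = dS G S v := by
    rw [dS_eq_sum, ← add_sum_erase S _ hv]
    simp [G.adj_comm]
  rw [h2]
  ring

theorem dS_eq {G H : SimpleGraph V} {π : V → Equiv.Perm V} (hH : Hypo G H π) (S : Finset V)
    (hS : ∀ v ∈ S, ∀ u ∈ S, π v u ∈ S) (h3 : 3 ≤ S.card) :
    ∀ v ∈ S, dS G S v = dS H S v := by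
  have key : ∀ v ∈ S, (∑ x ∈ S.erase v, ∑ y ∈ S.erase v, if G.Adj x y then 1 else 0) =
      ∑ x ∈ S.erase v, ∑ y ∈ S.erase v, if H.Adj x y then 1 else 0 := by
    intro v hv
    have hmap : (S.erase v).map (π v).toEmbedding = S.erase v := by
      apply map_perm_eq
      intro u hu
      rw [mem_erase] at hu ⊢
      refine ⟨fun h => hu.1 ?_, hS v hv u hu.2⟩
      apply (π v).injective
      rw [h, hH.fix]
    have h1 : (∑ x ∈ S.erase v, ∑ y ∈ S.erase v, if H.Adj x y then 1 else 0) =
        ∑ x ∈ S.erase v, ∑ y ∈ S.erase v, if H.Adj (π v x) (π v y) then 1 else 0 := by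
      conv_lhs => rw [← hmap]
      rw [sum_map]
      apply sum_congr rfl
      intro x _
      rw [sum_map]
      rfl
    rw [h1]
    apply sum_congr rfl
    intro x hx
    apply sum_congr rfl
    intro y hy
    have := hH.adj v x y (mem_erase.mp hx).1 (mem_erase.mp hy).1
    simp [this]
  have hsumG : (S.card - 2) * ∑ x ∈ S, dS G S x =
      ∑ v ∈ S, ∑ x ∈ S.erase v, ∑ y ∈ S.erase v, if G.Adj x y then 1 else 0 := by
    have h1 : ∑ _v ∈ S, ∑ x ∈ S, dS G S x = ∑ v ∈ S,
      ((∑ x ∈ S.erase v, ∑ y ∈ S.erase v, if G.Adj x y then 1 else 0) + 2 * dS G S v) :=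
      sum_congr rfl (fun v hv => pair_sum_eq G S v hv)
    rw [sum_add_distrib, ← mul_sum, sum_const, smul_eq_mul] at h1
    obtain ⟨k, hk⟩ : ∃ k, S.card = k + 2 := ⟨S.card - 2, by omega⟩
    rw [hk] at h1 ⊢
    rw [Nat.add_sub_cancel]
    nlinarith [h1]
  have hsumH : (S.card - 2) * ∑ x ∈ S, dS H S x =
      ∑ v ∈ S, ∑ x ∈ S.erase v, ∑ y ∈ S.erase v, if H.Adj x y then 1 else 0 := by
    have h1 : ∑ _v ∈ S, ∑ x ∈ S, dS H S x = ∑ v ∈ S,
      ((∑ x ∈ S.erase v, ∑ y ∈ S.erase v, if H.Adj x y then 1 else 0) + 2 * dS H S v) :=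
      sum_congr rfl (fun v hv => pair_sum_eq H S v hv)
    rw [sum_add_distrib, ← mul_sum, sum_const, smul_eq_mul] at h1
    obtain ⟨k, hk⟩ : ∃ k, S.card = k + 2 := ⟨S.card - 2, by omega⟩
    rw [hk] at h1 ⊢
    rw [Nat.add_sub_cancel]
    nlinarith [h1]
  rw [sum_congr rfl key, ← hsumH] at hsumG
  have hE : ∑ x ∈ S, dS G S x = ∑ x ∈ S, dS H S x :=
    Nat.eq_of_mul_eq_mul_left (by omega) hsumG
  intro v hv
  have a1 := pair_sum_eq G S v hv
  have a2 := pair_sum_eq H S v hv
  rw [key v hv] at a1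
  omega

theorem dS_erase (G : SimpleGraph V) (u v : V) :
    dS G univ u = dS G (univ.erase v) u + if G.Adj u v then 1 else 0 := by
  rw [dS_eq_sum, dS_eq_sum, ← add_sum_erase univ _ (mem_univ v)]
  ring

theorem dS_card {G H : SimpleGraph V} {π : V → Equiv.Perm V} (hH : Hypo G H π) (u v : V)
    (huv : u ≠ v) : dS G (univ.erase v) u = dS H (univ.erase v) (π v u) := by
  have hmap : (univ.erase v).map (π v).toEmbedding = univ.erase v := by
    apply map_perm_eq
    intro w hw
    rw [mem_erase] at hw ⊢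
    refine ⟨fun h => hw.1 ?_, mem_univ _⟩
    apply (π v).injective
    rw [h, hH.fix]
  rw [dS_eq_sum, dS_eq_sum]
  conv_rhs => rw [← hmap]
  rw [sum_map]
  apply sum_congr rfl
  intro y hy
  have := hH.adj v u y huv (mem_erase.mp hy).1
  simp [this]

section gap

variable {G H : SimpleGraph V} {π : V → Equiv.Perm V} (hH : Hypo G H π)
  (hn : 3 ≤ Fintype.card V) (e : ℕ) (he : ∀ v, dS G univ v ≠ e)

/-- vertices of large degree -/
noncomputable def hiS (G : SimpleGraph V) (e : ℕ) : Finset V := univ.filter (fun v => e < dS G univ v)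

/-- vertices of small degree -/
noncomputable def loS (G : SimpleGraph V) (e : ℕ) : Finset V := univ.filter (fun v => dS G univ v < e)

/-- vertices of small degree with all neighbours of large degree -/
noncomputable def frS (G : SimpleGraph V) (e : ℕ) : Finset V :=
  (loS G e).filter (fun v => dS G (loS G e) v = 0)

include hH hn he

theorem deg_eq (v : V) : dS G univ v = dS H univ v :=
  dS_eq hH univ (fun _ _ _ _ => mem_univ _) (by rwa [card_univ]) v (mem_univ v)

theorem hi_maps (v u : V) (hu : u ∈ hiS G e) : π v u ∈ hiS G e := by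
  by_cases huv : u = v
  · subst huv; rw [hH.fix]; exact hu
  · simp only [hiS, mem_filter, mem_univ, true_and] at hu ⊢
    have h1 := dS_erase G u v
    have h2 := dS_erase H (π v u) v
    have h3 := dS_card hH u v huv
    have h4 := deg_eq hH hn e he (π v u)
    have h5 := he (π v u)
    have h6 : (if G.Adj u v then 1 else 0) ≤ 1 := by split_ifs <;> omega
    omega

theorem lo_maps (v u : V) (hu : u ∈ loS G e) : π v u ∈ loS G e := by
  by_cases huv : u = v
  · subst huv; rw [hH.fix]; exact hu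
  · simp only [loS, mem_filter, mem_univ, true_and] at hu ⊢
    have h1 := dS_erase G u v
    have h2 := dS_erase H (π v u) v
    have h3 := dS_card hH u v huv
    have h4 := deg_eq hH hn e he (π v u)
    have h5 := he (π v u)
    have h6 : (if H.Adj (π v u) v then 1 else 0) ≤ 1 := by split_ifs <;> omega
    omega

theorem lo_eq (h3 : 3 ≤ (loS G e).card) (v : V) (hv : v ∈ loS G e) :
    dS G (loS G e) v = dS H (loS G e) v :=
  dS_eq hH (loS G e) (fun v _ u hu => lo_maps hH hn e he v u hu) h3 v hv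

theorem dS_zero (K : SimpleGraph V) (S : Finset V) (v : V) :
    dS K S v = 0 ↔ ∀ y ∈ S, ¬ K.Adj v y := by
  rw [dS, card_eq_zero, filter_eq_empty_iff]

theorem fr_maps (h3 : 3 ≤ (loS G e).card) (v : V) (hv : v ∈ frS G e) (u : V) (hu : u ∈ frS G e) :
    π v u ∈ frS G e := by
  by_cases huv : u = v
  · subst huv; rw [hH.fix]; exact hu
  · have hu1 := (mem_filter.mp hu).1
    have hu2 := (dS_zero hH hn e he G _ _).mp (mem_filter.mp hu).2
    have hv1 := (mem_filter.mp hv).1
    have hv2 := (mem_filter.mp hv).2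
    rw [lo_eq hH hn e he h3 v hv1, dS_zero hH hn e he] at hv2
    have hpu := lo_maps hH hn e he v u hu1
    refine mem_filter.mpr ⟨hpu, ?_⟩
    rw [lo_eq hH hn e he h3 _ hpu, dS_zero hH hn e he]
    intro y hy hadj
    by_cases hyv : y = v
    · subst hyv
      exact hv2 _ hpu hadj.symm
    · have hz := symm_mem (π v) (loS G e) (fun w hw => lo_maps hH hn e he v w hw) y hy
      have hzv : (π v).symm y ≠ v := by
        intro h
        apply hyv
        have := congrArg (π v) h
        rwa [Equiv.apply_symm_apply, hH.fix] at this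
      apply hu2 _ hz
      rw [← hH.adj v u _ huv hzv, Equiv.apply_symm_apply]
      exact hadj

theorem hi_or_lo (v : V) : v ∈ hiS G e ∨ v ∈ loS G e := by
  have := he v
  simp only [hiS, loS, mem_filter, mem_univ, true_and]
  omega

theorem fr_not_hi (v : V) (hv : v ∈ frS G e) : v ∉ hiS G e := by
  have h1 := (mem_filter.mp hv).1
  simp only [hiS, loS, mem_filter, mem_univ, true_and] at h1 ⊢
  omega

/-- neighbours of a free vertex have large degree -/
theorem fr_adj (v y : V) (hv : v ∈ frS G e) (h : G.Adj v y) : y ∈ hiS G e := by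
  rcases hi_or_lo hH hn e he y with h1 | h1
  · exact h1
  · exact absurd h ((dS_zero hH hn e he G _ _).mp (mem_filter.mp hv).2 y h1)

theorem fr_adj' (h3 : 3 ≤ (loS G e).card) (v y : V) (hv : v ∈ frS G e) (h : H.Adj v y) :
    y ∈ hiS G e := by
  rcases hi_or_lo hH hn e he y with h1 | h1
  · exact h1
  · have h2 := (mem_filter.mp hv).2
    rw [lo_eq hH hn e he h3 v (mem_filter.mp hv).1, dS_zero hH hn e he] at h2
    exact absurd h (h2 y h1)

end gap

end Pool.Agent.TH87.RVC
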