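import Pool.Agent.TH87.RVC.Graph

set_option autoImplicit false
set_option linter.unusedSectionVars false

namespace Pool.Agent.TH87.RVC

open Finset Classical
open Pool.Agent.H234RC (Hypo NonIso)

section act

variable {A : Type} [Fintype A]

/-- the action of permutations on finite sets -/
noncomputable def actF (A : Type) : Equiv.Perm A →* Equiv.Perm (Finset A) where
  toFun α := Equiv.finsetCongr α
  map_one' := by
    ext s x
    simp only [Equiv.finsetCongr_apply, mem_map_equiv]
    exact Iff.rfl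
  map_mul' α β := by
    ext s x
    simp only [Equiv.finsetCongr_apply, mem_map_equiv, Equiv.Perm.mul_apply]
    exact Iff.rfl

theorem mem_actF (α : Equiv.Perm A) (s : Finset A) (x : A) : α x ∈ actF A α s ↔ x ∈ s := by
  show α x ∈ s.map α.toEmbedding ↔ _
  rw [mem_map_equiv, Equiv.symm_apply_apply]

end act

variable {V : Type} [Fintype V]

/-- restrictions to A of automorphisms of the graph induced off F -/
def relAut (G : SimpleGraph V) (A F : Finset V) : Subgroup (Equiv.Perm {x // x ∈ A}) where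
  carrier := {α | ∃ ρ : Equiv.Perm V, (∀ x : {x // x ∈ A}, ρ x = α x) ∧ (∀ x, ρ x ∈ F ↔ x ∈ F) ∧
    ∀ x y, x ∉ F → y ∉ F → (G.Adj (ρ x) (ρ y) ↔ G.Adj x y)}
  one_mem' := ⟨1, fun _ => rfl, fun _ => Iff.rfl, fun _ _ _ _ => Iff.rfl⟩
  mul_mem' := by
    rintro α β ⟨ρ, h1, h2, h3⟩ ⟨σ, k1, k2, k3⟩
    refine ⟨ρ * σ, fun x => ?_, fun x => ?_, fun x y hx hy => ?_⟩
    · rw [Equiv.Perm.mul_apply, k1, h1]; rfl
    · rw [Equiv.Perm.mul_apply, h2, k2]
    · rw [Equiv.Perm.mul_apply, Equiv.Perm.mul_apply, h3 _ _ (fun h => hx ((k2 x).mp h))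
        (fun h => hy ((k2 y).mp h)), k3 _ _ hx hy]
  inv_mem' := by
    rintro α ⟨ρ, h1, h2, h3⟩
    have hF : ∀ x, ρ.symm x ∈ F ↔ x ∈ F := fun x => by
      rw [← h2, Equiv.apply_symm_apply]
    refine ⟨ρ.symm, fun x => ?_, hF, fun x y hx hy => ?_⟩
    · rw [Equiv.symm_apply_eq, h1]
      congr 1
      exact (α.apply_symm_apply x).symm
    · rw [← h3 _ _ (fun h => hx ((hF x).mp h)) (fun h => hy ((hF y).mp h)),
        Equiv.apply_symm_apply, Equiv.apply_symm_apply]

theorem del_cnt {X ι : Type} [DecidableEq X] [Fintype ι] [DecidableEq ι] (t : ι → X) (i : ι) (x : X) :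
    del (cnt t) (t i) x = (univ.filter (fun j => j ≠ i ∧ t j = x)).card := by
  unfold del cnt
  have h0 : (univ.filter (fun j => j ≠ i ∧ t j = x)) = (univ.filter (fun j => t j = x)).erase i := by
    ext j; simp
  rw [h0]
  by_cases h : x = t i
  · subst h
    rw [if_pos rfl, card_erase_of_mem (by simp)]
  · rw [if_neg h, erase_eq_of_notMem]
    simp only [mem_filter, mem_univ, true_and]
    exact fun h' => h h'.symm

theorem graph_bound {G H : SimpleGraph V} {π : V → Equiv.Perm V} (hH : Hypo G H π)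
    (hN : NonIso G H) (e : ℕ) (he : ∀ v, dS G univ v ≠ e) :
    ∃ s : ℕ, (frS G e).card ≤ s * (s + 2) ∧
      (3 / 2 : ℝ) ^ s ≤ 2 * ((hiS G e).card.factorial : ℝ) := by
  by_cases h3 : (frS G e).card < 3
  · refine ⟨1, by omega, ?_⟩
    have : (1 : ℝ) ≤ ((hiS G e).card.factorial : ℝ) := by
      exact_mod_cast Nat.succ_le_of_lt (Nat.factorial_pos _)
    rw [pow_one]; linarith
  push Not at h3
  have hlo : 3 ≤ (loS G e).card := h3.trans (card_le_card (filter_subset _ _))
  have hn : 3 ≤ Fintype.card V := hlo.trans (card_le_univ _)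
  set F := frS G e with hF
  set A := hiS G e with hA
  have hne : F.Nonempty := card_pos.mp (by omega)
  obtain ⟨i0, hi0⟩ := hne
  have hmapsA : ∀ v u, π v u ∈ A ↔ u ∈ A := fun v u =>
    mem_iff_of_maps (π v) A (fun w hw => hi_maps hH hn e he v w hw) u
  have hmapsF : ∀ v ∈ F, ∀ u, π v u ∈ F ↔ u ∈ F := fun v hv u =>
    mem_iff_of_maps (π v) F (fun w hw => fr_maps hH hn e he hlo v hv w hw) u
  have hFA : ∀ v ∈ F, v ∉ A := fun v hv => fr_not_hi hH hn e he v hv
  -- restrictions
  let α : V → Equiv.Perm {x // x ∈ A} := fun v => (π v).subtypePerm (fun x => hmapsA v x)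
  have hα : ∀ v (x : {x // x ∈ A}), ((α v x : {x // x ∈ A}) : V) = π v x := fun v x => rfl
  let ι := {x // x ∈ F}
  let NG : V → Finset {x // x ∈ A} := fun v => univ.filter (fun x => G.Adj v x)
  let NH : V → Finset {x // x ∈ A} := fun v => univ.filter (fun x => H.Adj v x)
  have hNG : ∀ v (x : {x // x ∈ A}), x ∈ NG v ↔ G.Adj v x := fun v x => by simp [NG]
  have hNH : ∀ v (x : {x // x ∈ A}), x ∈ NH v ↔ H.Adj v x := fun v x => by simp [NH]
  -- relation between the types
  have hrel : ∀ i ∈ F, ∀ j ∈ F, j ≠ i → NH (π i j) = actF _ (α i) (NG j) := by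
    intro i hi j hj hji
    ext x
    obtain ⟨y, rfl⟩ := (α i).surjective x
    rw [mem_actF, hNG, hNH, hα]
    have hyi : (y : V) ≠ i := fun h => hFA i hi (h ▸ y.2)
    exact hH.adj i j y hji hyi
  let Γ := relAut G A F
  let φ : Γ →* Equiv.Perm (Finset {x // x ∈ A}) := (actF _).comp Γ.subtype
  have hφ : ∀ (g : Γ) s, φ g s = actF _ (g : Equiv.Perm {x // x ∈ A}) s := fun g s => rfl
  let t : ι → Finset {x // x ∈ A} := fun i => NG i
  let t' : ι → Finset {x // x ∈ A} := fun i => actF _ (α i0)⁻¹ (NH i)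
  have : Nonempty ι := ⟨⟨i0, hi0⟩⟩
  -- deck condition
  have hdeck : ∀ i, ∃ g : Γ, ∀ x, del (cnt t') (t' i) (φ g x) = del (cnt t) (t i) x := by
    intro i
    have hmem : (α i0)⁻¹ * α i ∈ Γ := by
      refine ⟨(π i0).symm * π i, fun x => ?_, fun x => ?_, fun x y hx hy => ?_⟩
      · rw [Equiv.Perm.mul_apply]
        rw [Equiv.symm_apply_eq, ← hα, Equiv.Perm.mul_apply]
        have : α i0 ((α i0)⁻¹ (α i x)) = α i x := (α i0).apply_symm_apply _
        rw [← hα i0, this]
      · rw [Equiv.Perm.mul_apply, ← hmapsF i0 hi0, Equiv.apply_symm_apply, hmapsF i i.2]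
      · rw [Equiv.Perm.mul_apply, Equiv.Perm.mul_apply]
        have hx1 : (π i0).symm (π i x) ∉ F := by
          rw [← hmapsF i0 hi0, Equiv.apply_symm_apply, hmapsF i i.2]; exact hx
        have hy1 : (π i0).symm (π i y) ∉ F := by
          rw [← hmapsF i0 hi0, Equiv.apply_symm_apply, hmapsF i i.2]; exact hy
        have hx2 : (π i0).symm (π i x) ≠ i0 := fun h => hx1 (by rw [h]; exact hi0)
        have hy2 : (π i0).symm (π i y) ≠ i0 := fun h => hy1 (by rw [h]; exact hi0)
        have h1 := hH.adj i0 _ _ hx2 hy2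
        rw [Equiv.apply_symm_apply, Equiv.apply_symm_apply] at h1
        rw [← h1]
        exact hH.adj i x y (fun h => hx (h ▸ i.2)) (fun h => hy (h ▸ i.2))
    refine ⟨⟨_, hmem⟩, fun x => ?_⟩
    rw [del_cnt, del_cnt]
    symm
    -- bijection given by `π i`
    have hpi : ∀ j : ι, π i j ∈ F := fun j => (hmapsF i i.2 j).mpr j.2
    have hpi' : ∀ j : ι, (π i).symm j ∈ F := fun j => by
      rw [← hmapsF i i.2, Equiv.apply_symm_apply]; exact j.2
    apply card_bij' (fun (j : ι) _ => (⟨π i j, hpi j⟩ : ι))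
      (fun (j : ι) _ => (⟨(π i).symm j, hpi' j⟩ : ι))
    · intro j hj
      simp only [mem_filter, mem_univ, true_and] at hj ⊢
      refine ⟨fun h => hj.1 ?_, ?_⟩
      · have h' : π i j = i := congrArg Subtype.val h
        apply Subtype.ext
        apply (π i).injective
        rw [h', hH.fix]
      · show actF _ (α i0)⁻¹ (NH (π i j)) = φ ⟨_, hmem⟩ x
        rw [hrel i i.2 j j.2 (fun h => hj.1 (Subtype.ext h)), hφ]
        rw [← hj.2]
        show _ = actF _ ((α i0)⁻¹ * α i) (NG j)
        rw [map_mul]; rfl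
    · intro j hj
      simp only [mem_filter, mem_univ, true_and] at hj ⊢
      have hji : (π i).symm (j : V) ≠ i := by
        intro h
        apply hj.1
        apply Subtype.ext
        have := congrArg (π i) h
        rwa [Equiv.apply_symm_apply, hH.fix] at this
      refine ⟨fun h => hji (congrArg Subtype.val h), ?_⟩
      show NG ((π i).symm j) = x
      have h1 := hj.2
      have h2 : t' j = actF _ ((α i0)⁻¹ * α i) (NG ((π i).symm j)) := by
        show actF _ (α i0)⁻¹ (NH j) = _
        have h3 := hrel i i.2 _ (hpi' j) hji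
        rw [Equiv.apply_symm_apply] at h3
        rw [h3, map_mul]; rfl
      rw [h2] at h1
      exact (actF _ ((α i0)⁻¹ * α i)).injective h1
    · intro j hj
      apply Subtype.ext
      simp
    · intro j hj
      apply Subtype.ext
      simp
  -- not equivalent
  have hneq : ¬ ∃ γ : Γ, ∀ x, cnt t' (φ γ x) = cnt t x := by
    rintro ⟨⟨γ, ρ, hρ1, hρ2, hρ3⟩, hγ⟩
    apply hN
    -- bijection of the free vertices
    have hfib : ∀ c : Finset {x // x ∈ A},
        Nonempty ({j : ι // actF _ γ (t j) = c} ≃ {j : ι // t' j = c}) := by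
      intro c
      obtain ⟨x, rfl⟩ := (actF _ γ).surjective c
      have h1 := hγ x
      refine ⟨Fintype.equivOfCardEq ?_⟩
      rw [Fintype.card_subtype, Fintype.card_subtype]
      have h2 : (univ.filter (fun j : ι => actF _ γ (t j) = actF _ γ x)) =
          univ.filter (fun j : ι => t j = x) := by
        ext j
        simp
      rw [h2]
      exact h1.symm
    let β : ι ≃ ι := Equiv.ofFiberEquiv (fun c => (hfib c).some)
    have hβ : ∀ j : ι, t' (β j) = actF _ γ (t j) := fun j => Equiv.ofFiberEquiv_map _ j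
    -- the isomorphism
    let σ0 : V → V := fun x => if h : x ∈ F then (β ⟨x, h⟩ : V) else π i0 (ρ x)
    have hσF : ∀ x (h : x ∈ F), σ0 x = (β ⟨x, h⟩ : V) := fun x h => by simp [σ0, h]
    have hσR : ∀ x, x ∉ F → σ0 x = π i0 (ρ x) := fun x h => by simp [σ0, h]
    have hσF' : ∀ x, x ∈ F → σ0 x ∈ F := fun x h => by rw [hσF x h]; exact (β _).2
    have hσR' : ∀ x, x ∉ F → σ0 x ∉ F := fun x h => by
      rw [hσR x h, hmapsF i0 hi0, hρ2]; exact h
    have hinj : Function.Injective σ0 := by
      intro x y hxy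
      by_cases hx : x ∈ F
      · by_cases hy : y ∈ F
        · rw [hσF x hx, hσF y hy] at hxy
          have := β.injective (Subtype.ext hxy)
          exact congrArg Subtype.val this
        · exact absurd (hxy ▸ hσF' x hx) (hσR' y hy)
      · by_cases hy : y ∈ F
        · exact absurd (hxy ▸ hσF' y hy) (hσR' x hx)
        · rw [hσR x hx, hσR y hy] at hxy
          exact ρ.injective ((π i0).injective hxy)
    let σ : Equiv.Perm V := Equiv.ofBijective σ0 (Finite.injective_iff_bijective.mp hinj)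
    have hσ : ∀ x, σ x = σ0 x := fun x => rfl
    refine ⟨σ, fun x y => ?_⟩
    rw [hσ, hσ]
    have hAρ : ∀ y, y ∉ F → (ρ y ∈ A ↔ y ∈ A) := by
      intro y hy
      have hmaps : ∀ u ∈ A, ρ u ∈ A := fun u hu => by
        rw [hρ1 ⟨u, hu⟩]; exact (γ ⟨u, hu⟩).2
      exact mem_iff_of_maps ρ A hmaps y
    -- one free vertex and one other vertex
    have hmix : ∀ x y, x ∈ F → y ∉ F → (H.Adj (σ0 x) (σ0 y) ↔ G.Adj x y) := by
      intro x y hx hy
      by_cases hyA : y ∈ A
      · have h1 := hβ ⟨x, hx⟩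
        -- t' (β x) = γ (NG x)
        have h2 : NH (β ⟨x, hx⟩) = actF _ (α i0) (actF _ γ (NG x)) := by
          rw [← show t' (β ⟨x, hx⟩) = actF _ γ (NG x) from h1]
          show _ = actF _ (α i0) (actF _ (α i0)⁻¹ (NH (β ⟨x, hx⟩)))
          rw [map_inv]
          exact ((actF _ (α i0)).apply_symm_apply _).symm
        have h3 : σ0 y = ((α i0 (γ ⟨y, hyA⟩) : {x // x ∈ A}) : V) := by
          rw [hσR y hy, hα, ← hρ1]
        rw [h3, hσF x hx, ← hNH, h2, mem_actF, mem_actF, hNG]
      · have h1 : ¬ G.Adj x y := fun h => hyA (fr_adj hH hn e he x y hx h)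
        have h2 : σ0 y ∉ A := by
          rw [hσR y hy, hmapsA, hAρ y hy]; exact hyA
        have h3 : ¬ H.Adj (σ0 x) (σ0 y) := fun h => h2 (fr_adj' hH hn e he hlo _ _ (hσF' x hx) h)
        simp [h1, h3]
    by_cases hx : x ∈ F
    · by_cases hy : y ∈ F
      · have h1 : ¬ G.Adj x y := fun h => hFA y hy (fr_adj hH hn e he x y hx h)
        have h3 : ¬ H.Adj (σ0 x) (σ0 y) := fun h =>
          hFA _ (hσF' y hy) (fr_adj' hH hn e he hlo _ _ (hσF' x hx) h)
        simp [h1, h3]
      · exact hmix x y hx hy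
    · by_cases hy : y ∈ F
      · rw [H.adj_comm, G.adj_comm]
        exact hmix y x hy hx
      · rw [hσR x hx, hσR y hy]
        have hx1 : ρ x ∉ F := fun h => hx ((hρ2 x).mp h)
        have hy1 : ρ y ∉ F := fun h => hy ((hρ2 y).mp h)
        have hx2 : ρ x ≠ i0 := fun h => hx1 (by rw [h]; exact hi0)
        have hy2 : ρ y ≠ i0 := fun h => hy1 (by rw [h]; exact hi0)
        rw [hH.adj i0 _ _ hx2 hy2]
        exact hρ3 x y hx hy
  obtain ⟨s, hs1, hs2⟩ := main_bound φ t t' hdeck hneq
  refine ⟨s, ?_, ?_⟩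
  · have : Fintype.card ι = F.card := Fintype.card_coe F
    rwa [this] at hs1
  · refine hs2.trans ?_
    have h1 : Fintype.card Γ ≤ A.card.factorial := by
      calc Fintype.card Γ ≤ Fintype.card (Equiv.Perm {x // x ∈ A}) :=
            Fintype.card_le_of_injective _ Subtype.val_injective
        _ = A.card.factorial := by rw [Fintype.card_perm, Fintype.card_coe]
    have h2 : (Fintype.card Γ : ℝ) ≤ (A.card.factorial : ℝ) := by exact_mod_cast h1
    linarith

end Pool.Agent.TH87.RVC
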