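import Mathlib

set_option autoImplicit false

namespace Pool.Agent.TH87.RVC

open Finset

section multi

variable {X Γ : Type} [Fintype X] [DecidableEq X] [Group Γ] [Fintype Γ] (φ : Γ →* Equiv.Perm X)

/-- sum over the group of the products of binomial coefficients -/
noncomputable def FF (c w : X → ℕ) : ℝ := ∑ γ : Γ, ∏ x, ((w (φ γ x)).choose (c x) : ℝ)

theorem FF_inv (c w : X → ℕ) (g : Γ) : FF φ c (fun x => w (φ g x)) = FF φ c w := by
  unfold FF
  apply Fintype.sum_equiv (Equiv.mulLeft g)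
  intro γ
  simp [map_mul, Equiv.Perm.mul_apply]

/-- delete one element of type `y` -/
def del (w : X → ℕ) (y : X) : X → ℕ := fun x => if x = y then w x - 1 else w x

theorem choose_id (u c : ℕ) :
    (u : ℝ) * ((u - 1).choose c : ℝ) = ((u : ℝ) - c) * (u.choose c : ℝ) := by
  rcases u with _ | n
  · rcases c with _ | c
    · simp
    · simp
  · have h := Nat.choose_mul_succ_eq n c
    rcases le_or_gt c (n + 1) with hc | hc
    · have h2 : ((n.choose c : ℝ)) * ((n : ℝ) + 1) = ((n + 1).choose c : ℝ) * ((n : ℝ) + 1 - c) := by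
        have := congrArg (fun k : ℕ => (k : ℝ)) h
        simp only [Nat.cast_mul, Nat.cast_sub hc] at this
        push_cast at this
        exact this
      simp only [Nat.add_sub_cancel]
      push_cast
      linarith
    · rw [Nat.choose_eq_zero_of_lt hc, Nat.add_sub_cancel, Nat.choose_eq_zero_of_lt (by omega : n < c)]
      simp

theorem kelly_point (u c : X → ℕ) :
    ∑ z, (u z : ℝ) * ∏ y, ((del u z y).choose (c y) : ℝ) =
      ((∑ z, (u z : ℝ)) - ∑ z, (c z : ℝ)) * ∏ y, ((u y).choose (c y) : ℝ) := by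
  rw [← Finset.sum_sub_distrib, Finset.sum_mul]
  apply Finset.sum_congr rfl
  intro z _
  rw [← Finset.mul_prod_erase univ (fun y => ((del u z y).choose (c y) : ℝ)) (mem_univ z),
    ← Finset.mul_prod_erase univ (fun y => ((u y).choose (c y) : ℝ)) (mem_univ z)]
  have h1 : ∏ y ∈ univ.erase z, ((del u z y).choose (c y) : ℝ) =
      ∏ y ∈ univ.erase z, ((u y).choose (c y) : ℝ) := by
    apply Finset.prod_congr rfl
    intro y hy
    have : y ≠ z := (mem_erase.mp hy).1
    simp [del, this]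
  rw [h1, ← mul_assoc, ← mul_assoc]
  congr 1
  have : del u z z = u z - 1 := by simp [del]
  rw [this]
  exact choose_id _ _

theorem kelly_sum (c w : X → ℕ) :
    ∑ x, (w x : ℝ) * FF φ c (del w x) =
      ((∑ z, (w z : ℝ)) - ∑ z, (c z : ℝ)) * FF φ c w := by
  unfold FF
  simp_rw [Finset.mul_sum]
  rw [Finset.sum_comm]
  apply Finset.sum_congr rfl
  intro γ _
  have h1 : ∑ x, (w x : ℝ) * ∏ y, ((del w x (φ γ y)).choose (c y) : ℝ) =
      ∑ z, (w (φ γ z) : ℝ) * ∏ y, ((del w (φ γ z) (φ γ y)).choose (c y) : ℝ) :=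
    (Equiv.sum_comp (φ γ) (fun x => (w x : ℝ) * ∏ y, ((del w x (φ γ y)).choose (c y) : ℝ))).symm
  rw [h1]
  have h2 : ∀ z y, del w (φ γ z) (φ γ y) = del (fun x => w (φ γ x)) z y := by
    intro z y
    simp [del]
  simp_rw [h2]
  rw [kelly_point]
  congr 2
  exact Equiv.sum_comp (φ γ) (fun z => (w z : ℝ))

/-- number of indices of type `x` -/
def cnt {ι : Type} [Fintype ι] (t : ι → X) (x : X) : ℕ := (univ.filter (fun i => t i = x)).card

theorem sum_cnt {ι : Type} [Fintype ι] (t : ι → X) (f : X → ℝ) :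
    ∑ i, f (t i) = ∑ x, (cnt t x : ℝ) * f x := by
  classical
  rw [← Finset.sum_fiberwise univ t (fun i => f (t i))]
  apply Finset.sum_congr rfl
  intro x _
  rw [cnt, ← nsmul_eq_mul, ← Finset.sum_const]
  apply Finset.sum_congr rfl
  intro i hi
  rw [(mem_filter.mp hi).2]

theorem sum_cnt_card {ι : Type} [Fintype ι] (t : ι → X) : ∑ x, cnt t x = Fintype.card ι := by
  classical
  unfold cnt
  rw [← Finset.card_eq_sum_card_fiberwise (f := t) (s := univ) (t := univ) (fun _ _ => by simp)]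
  rfl

theorem kelly {ι : Type} [Fintype ι] (t t' : ι → X)
    (hdeck : ∀ i, ∃ g : Γ, ∀ x, del (cnt t') (t' i) (φ g x) = del (cnt t) (t i) x)
    (c : X → ℕ) (hc : ∑ x, c x < Fintype.card ι) :
    FF φ c (cnt t) = FF φ c (cnt t') := by
  have h1 := kelly_sum φ c (cnt t)
  have h2 := kelly_sum φ c (cnt t')
  rw [← sum_cnt t (fun x => FF φ c (del (cnt t) x))] at h1
  rw [← sum_cnt t' (fun x => FF φ c (del (cnt t') x))] at h2
  have h3 : ∀ i, FF φ c (del (cnt t) (t i)) = FF φ c (del (cnt t') (t' i)) := by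
    intro i
    obtain ⟨g, hg⟩ := hdeck i
    rw [← FF_inv φ c (del (cnt t') (t' i)) g]
    congr 1
    funext x
    exact (hg x).symm
  simp_rw [h3] at h1
  rw [h1] at h2
  have e1 : (∑ z, (cnt t z : ℝ)) = Fintype.card ι := by exact_mod_cast sum_cnt_card t
  have e2 : (∑ z, (cnt t' z : ℝ)) = Fintype.card ι := by exact_mod_cast sum_cnt_card t'
  rw [e1, e2] at h2
  have hne : ((Fintype.card ι : ℝ) - ∑ z, (c z : ℝ)) ≠ 0 := by
    have : (∑ z, (c z : ℝ)) < Fintype.card ι := by exact_mod_cast hc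
    exact sub_ne_zero.mpr (ne_of_gt this)
  exact mul_left_cancel₀ hne h2

/-- expansion of a test function -/
theorem expand (a : X → ℕ → ℝ) (D w : X → ℕ) :
    ∑ γ : Γ, ∏ x, (∑ j ∈ range (D x + 1), a x j * ((w (φ γ x)).choose j : ℝ)) =
      ∑ c ∈ Fintype.piFinset (fun x => range (D x + 1)), (∏ x, a x (c x)) * FF φ c w := by
  simp_rw [Finset.prod_univ_sum]
  rw [Finset.sum_comm]
  apply Finset.sum_congr rfl
  intro c _
  unfold FF
  rw [Finset.mul_sum]
  apply Finset.sum_congr rfl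
  intro γ _
  rw [Finset.prod_mul_distrib]

theorem test_lt (a : X → ℕ → ℝ) (D w w' : X → ℕ) (m : ℕ) (hD : ∑ x, D x < m)
    (hk : ∀ c : X → ℕ, ∑ x, c x < m → FF φ c w = FF φ c w') :
    ∑ γ : Γ, ∏ x, (∑ j ∈ range (D x + 1), a x j * ((w (φ γ x)).choose j : ℝ)) =
    ∑ γ : Γ, ∏ x, (∑ j ∈ range (D x + 1), a x j * ((w' (φ γ x)).choose j : ℝ)) := by
  rw [expand, expand]
  apply Finset.sum_congr rfl
  intro c hc
  rw [hk c]
  refine lt_of_le_of_lt (Finset.sum_le_sum (fun x _ => ?_)) hD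
  have := Fintype.mem_piFinset.mp hc x
  rw [mem_range] at this
  omega

theorem test_top (a : X → ℕ → ℝ) (D w w' : X → ℕ) (m : ℕ) (hD : ∑ x, D x = m)
    (hk : ∀ c : X → ℕ, ∑ x, c x < m → FF φ c w = FF φ c w') :
    ∑ γ : Γ, ∏ x, (∑ j ∈ range (D x + 1), a x j * ((w (φ γ x)).choose j : ℝ)) -
    ∑ γ : Γ, ∏ x, (∑ j ∈ range (D x + 1), a x j * ((w' (φ γ x)).choose j : ℝ)) =
      (∏ x, a x (D x)) * (FF φ D w - FF φ D w') := by
  rw [expand, expand, ← Finset.sum_sub_distrib]
  rw [Finset.sum_eq_single D]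
  · ring
  · intro c hc hne
    have hle : ∀ x, c x ≤ D x := by
      intro x
      have := Fintype.mem_piFinset.mp hc x
      rw [mem_range] at this
      omega
    have hlt : ∑ x, c x < m := by
      rw [← hD]
      obtain ⟨x, hx⟩ := Function.ne_iff.mp hne
      exact Finset.sum_lt_sum (fun x _ => hle x) ⟨x, mem_univ x, lt_of_le_of_ne (hle x) hx⟩
    rw [hk c hlt]
    ring
  · intro h
    exact absurd (Fintype.mem_piFinset.mpr (fun x => by simp)) h

end multi

end Pool.Agent.TH87.RVC
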